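import Pool.Agent.N936.TC.Stm

/-!
# TC/MET: a continuous Hausdorff image of a compact metrizable space is metrizable
-/

set_option autoImplicit false

namespace Pool.Agent.N222.TC

open Set Topology TopologicalSpace

/-- the set of the points whose whole fibre is in the union of `u` -/
def vv {P X : Type} (Φ : P → X) (u : Set (Set P)) : Set X := (Φ '' (⋃₀ u)ᶜ)ᶜ

theorem t_met : Pool.Agent.N936.TC.S_MET := by
  intro P X _ _ _ _ _ Φ hc hs
  letI := TopologicalSpace.metrizableSpaceMetric P
  haveI : SecondCountableTopology P := inferInstance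
  haveI : CompactSpace X := hs.compactSpace hc
  have hb := isBasis_countableBasis P
  have hopen : ∀ u : Set (Set P), u ⊆ countableBasis P → IsOpen (vv Φ u) := by
    intro u hu
    have h1 : IsOpen (⋃₀ u) := isOpen_sUnion fun v hv => hb.isOpen (hu hv)
    exact (hc.isClosedMap _ h1.isClosed_compl).isOpen_compl
  have hB : IsTopologicalBasis ((vv Φ) '' {u | u.Finite ∧ u ⊆ countableBasis P}) := by
    apply isTopologicalBasis_of_isOpen_of_nhds
    · rintro _ ⟨u, ⟨_, hu⟩, rfl⟩
      exact hopen u hu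
    · intro a U ha hU
      have hK : IsCompact (Φ ⁻¹' {a}) := (isClosed_singleton.preimage hc).isCompact
      have hO : IsOpen (Φ ⁻¹' U) := hU.preimage hc
      obtain ⟨t, ht⟩ := hK.elim_finite_subcover
        (fun v : {v : Set P // v ∈ countableBasis P ∧ v ⊆ Φ ⁻¹' U} => v.1)
        (fun v => hb.isOpen v.2.1) (by
          intro p hp
          have hp' : Φ p = a := hp
          obtain ⟨v, hv, hpv, hvU⟩ := hb.exists_subset_of_mem_open
            (show p ∈ Φ ⁻¹' U by rw [mem_preimage, hp']; exact ha) hO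
          exact mem_iUnion.2 ⟨⟨v, hv, hvU⟩, hpv⟩)
      refine ⟨vv Φ (Subtype.val '' (t : Set {v : Set P // v ∈ countableBasis P ∧ v ⊆ Φ ⁻¹' U})),
        ⟨_, ⟨t.finite_toSet.image _, ?_⟩, rfl⟩, ?_, ?_⟩
      · rintro _ ⟨v, _, rfl⟩
        exact v.2.1
      · rintro ⟨p, hp, hpa⟩
        apply hp
        obtain ⟨v, hvt, hpv⟩ := mem_iUnion₂.1 (ht (show p ∈ Φ ⁻¹' {a} from hpa))
        exact mem_sUnion.2 ⟨v.1, ⟨v, hvt, rfl⟩, hpv⟩
      · intro y hy
        obtain ⟨p, rfl⟩ := hs y
        by_contra hyU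
        apply hy
        refine ⟨p, fun hp => ?_, rfl⟩
        obtain ⟨_, ⟨v, _, rfl⟩, hpv⟩ := mem_sUnion.1 hp
        exact hyU (v.2.2 hpv)
  haveI : SecondCountableTopology X :=
    hB.secondCountableTopology ((countable_ofPred_finite_subset (countable_countableBasis P)).image _)
  exact TopologicalSpace.metrizableSpace_of_t3_secondCountable X

end Pool.Agent.N222.TC
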